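import Pool.Agent.T18.Stmts

/-!
# Steps 9 and 12 of note 3205
-/

set_option autoImplicit false

namespace Pool.Agent.T18

variable {V W B : Type} [AddCommGroup V] [Module (ZMod 2) V] [AddCommGroup W]
  [Module (ZMod 2) W] [AddCommGroup B] [Module (ZMod 2) B]

namespace H53

theorem z01 (a : ZMod 2) : a = 0 ∨ a = 1 := by revert a; decide

theorem dd {M : Type} [AddCommGroup M] [Module (ZMod 2) M] (a : M) : a + a = 0 :=
  ZModModule.add_self a

theorem eq_of_sum {M : Type} [AddCommGroup M] [Module (ZMod 2) M] {a b : M} (h : a + b = 0) :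
    a = b := by
  have h1 : a + b + b = b := by rw [h, zero_add]
  rwa [add_assoc, dd, add_zero] at h1

theorem add_add_self {M : Type} [AddCommGroup M] [Module (ZMod 2) M] (a b : M) :
    a + (a + b) = b := by rw [← add_assoc, dd, zero_add]

theorem sum_zero {β : V →ₗ[ZMod 2] W →ₗ[ZMod 2] B} {c : B} {v : V} {w w' : W}
    (h : β v w = c) (h' : β v w' = c) : β v (w + w') = 0 := by
  rw [map_add, h, h', dd]

theorem sum_zero' {β : V →ₗ[ZMod 2] W →ₗ[ZMod 2] B} {c : B} {v v' : V} {w : W}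
    (h : β v w = c) (h' : β v' w = c) : β (v + v') w = 0 := by
  rw [map_add, LinearMap.add_apply, h, h', dd]

theorem val_of_sum {β : V →ₗ[ZMod 2] W →ₗ[ZMod 2] B} {c : B} {v : V} {w w' : W}
    (h : β v w = c) (h' : β v (w + w') = 0) : β v w' = c := by
  rw [map_add] at h'
  rw [← eq_of_sum h', h]

/-- the basic facts -/
structure Bas (β : V →ₗ[ZMod 2] W →ₗ[ZMod 2] B) (c : B) (l : V → W) : Prop where
  adj : ∀ u v, InS β c u → InS β c v → (Adj β c u v ↔ β u (l v) = c)
  bot : ∀ u v, Adj β c u v → Wv β u ⊓ Wv β v = ⊥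
  ladd : ∀ u v, Adj β c u v → l (u + v) = l u + l v
  six : ∀ u v, InS β c u → InS β c v → β u (l v) = 0 → u = v

theorem bas [Finite V] [Finite W] (hb : Stmt_basic) {β : V →ₗ[ZMod 2] W →ₗ[ZMod 2] B} {c : B}
    {l : V → W} (P : PolB β c l) : Bas β c l := by
  obtain ⟨h1, -, -, h4, h5, h6, -, -⟩ := hb V W B β c l P
  exact ⟨h1, h4, h5, h6⟩

theorem adj_symm {β : V →ₗ[ZMod 2] W →ₗ[ZMod 2] B} {c : B} {u v : V} (h : Adj β c u v) :
    Adj β c v u := ⟨h.2.1, h.1, by rw [add_comm]; exact h.2.2⟩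

theorem adj_add {β : V →ₗ[ZMod 2] W →ₗ[ZMod 2] B} {c : B} {u v : V} (h : Adj β c u v) :
    Adj β c u (u + v) := ⟨h.1, h.2.2, by rw [add_add_self]; exact h.2.1⟩

theorem le_inf {β : V →ₗ[ZMod 2] W →ₗ[ZMod 2] B} {K : Submodule (ZMod 2) W} {u v : V}
    (hu : u ∈ VK β K) (hv : v ∈ VK β K) : K ≤ Wv β u ⊓ Wv β v :=
  fun k hk => ⟨mem_Wv.2 (hu k hk), mem_Wv.2 (hv k hk)⟩

/-- no edges in `M_K` -/
theorem no_edge {β : V →ₗ[ZMod 2] W →ₗ[ZMod 2] B} {c : B} {l : V → W}
    {K : Submodule (ZMod 2) W} (b : Bas β c l) (hK : K ≠ ⊥) {u v : V} (hu : u ∈ VK β K)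
    (hv : v ∈ VK β K) : ¬ Adj β c u v := by
  intro h
  apply hK
  rw [eq_bot_iff, ← b.bot u v h]
  exact le_inf hu hv

end H53

open H53

theorem NF_proof (hb : Stmt_basic) : Stmt_NF := by
  intro V W B _ _ _ _ _ _ _ _ β c l K v0 lam P M N
  have b := bas hb P
  -- the neighbours of a point of `L`
  have hadj : ∀ u f, u ∈ VK β K → β u lam = c → InF β c l K lam f → Adj β c u f := by
    rintro u f hu hul ⟨hf, hfl⟩
    rw [b.adj u f ⟨lam, hul⟩ hf]
    apply val_of_sum hul
    rw [add_comm]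
    exact hu _ hfl
  have hnu : ∀ u z, u ∈ VK β K → β u lam = c → Adj β c u z →
      InF β c l K lam z ∨ Adj β c v0 z := by
    intro u z hu hul hz
    have huS : InS β c u := ⟨lam, hul⟩
    have hzl : β u (l z) = c := (b.adj u z huS hz.2.1).1 hz
    have hmem : ∀ w, β u w = c → w + lam ∈ K ∨ w + lam + l u ∈ K := by
      intro w hw
      have h1 : w + lam ∈ Wv β u := mem_Wv.2 (sum_zero hw hul)
      rw [N.wL u hu hul, Submodule.mem_sup] at h1
      obtain ⟨k, hk, x, hx, hkx⟩ := h1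
      obtain ⟨a, rfl⟩ := Submodule.mem_span_singleton.1 hx
      rcases z01 a with rfl | rfl
      · left
        rw [← hkx, zero_smul, add_zero]
        exact hk
      · right
        rw [← hkx, one_smul, add_assoc, dd, add_zero]
        exact hk
    -- the line through `u` and `v0`
    obtain ⟨w, -, hw1, hw2⟩ := P.flat.v 0 u v0 ⟨lam, by simp, hul⟩
      (by obtain ⟨w, hw⟩ := N.v0S; exact ⟨w, by simp, hw⟩)
    have h2 : w + lam + l u ∈ K := by
      rcases hmem w hw1 with h | h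
      · exact absurd (val_of_sum hw2 (N.v0K _ h)) N.v0lam
      · exact h
    rcases hmem _ hzl with h | h
    · exact Or.inl ⟨hz.2.1, h⟩
    · right
      rw [b.adj v0 z N.v0S hz.2.1]
      apply val_of_sum hw2
      have e : w + l z = (w + lam + l u) + (l z + lam + l u) := by
        have e1 : (w + lam + l u) + (l z + lam + l u) = (w + l z) + (lam + lam) + (l u + l u) := by
          abel
        rw [e1, dd, dd, add_zero, add_zero]
      rw [e]
      exact N.v0K _ (K.add_mem h2 h)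
  have hne : ∀ u, β u lam = c → u ≠ v0 := by
    rintro u hu rfl
    exact N.v0lam hu
  refine ⟨hadj, ?_, ?_, hnu, ?_, ?_⟩
  · intro u u1 z hu hul hu1 hu1l hne h h1
    refine ⟨h.2.1, ?_⟩
    have e1 := (b.adj u z ⟨lam, hul⟩ h.2.1).1 h
    have e2 := (b.adj u1 z ⟨lam, hu1l⟩ h.2.1).1 h1
    have hK : Wv β u ⊓ Wv β u1 = K :=
      M.max u u1 ⟨lam, hul⟩ ⟨lam, hu1l⟩ hne (H53.le_inf hu hu1)
    rw [← hK]
    exact ⟨mem_Wv.2 (sum_zero e1 hul), mem_Wv.2 (sum_zero e2 hu1l)⟩
  · rintro f ⟨hf, hfl⟩ h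
    exact N.v0lam (val_of_sum ((b.adj v0 f N.v0S hf).1 h) (N.v0K _ hfl))
  · intro z hz
    have hzl : β v0 (l z) = c := (b.adj v0 z N.v0S hz.2.1).1 hz
    obtain ⟨u2, -, hu2, -, hu2l, -, -⟩ := N.two
    obtain ⟨u, hu, hul1, hul2⟩ := P.flat.w K (l z) lam ⟨v0, N.v0K, hzl⟩ ⟨u2, hu2, hu2l⟩
    have huS : InS β c u := ⟨lam, hul2⟩
    have huz : Adj β c u z := (b.adj u z huS hz.2.1).2 hul1
    refine ⟨u, u + z, hu, hul2, ?_, (add_add_self u z).symm, huz⟩
    rcases hnu u (u + z) hu hul2 (adj_add huz) with h | h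
    · exact h
    · exfalso
      have e1 := (b.adj (u + z) v0 h.2.1 N.v0S).1 (adj_symm h)
      have e2 := (b.adj z v0 hz.2.1 N.v0S).1 (adj_symm hz)
      have e3 : β u (l v0) = 0 := by
        rw [map_add, LinearMap.add_apply, e2] at e1
        have := congrArg (fun t => t + c) e1
        simp only [add_assoc, dd, add_zero] at this
        exact this
      exact hne u hul2 (b.six u v0 huS N.v0S e3)
  · intro u f hu hul hf
    have huf := hadj u f hu hul hf
    rcases hnu u (u + f) hu hul (adj_add huf) with h | h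
    · exfalso
      obtain ⟨a, a', ha, ha', hal, hal', haa⟩ := N.two
      obtain ⟨u1, hu1, hu1l, hne1⟩ : ∃ u1, u1 ∈ VK β K ∧ β u1 lam = c ∧ u1 ≠ u := by
        by_cases h1 : a = u
        · exact ⟨a', ha', hal', fun h2 => haa (h1.trans h2.symm)⟩
        · exact ⟨a, ha, hal, h1⟩
      have e1 := (b.adj f u1 hf.1 ⟨lam, hu1l⟩).1 (adj_symm (hadj u1 f hu1 hu1l hf))
      have e2 := (b.adj (u + f) u1 h.1 ⟨lam, hu1l⟩).1 (adj_symm (hadj u1 _ hu1 hu1l h))
      have e3 : β u (l u1) = 0 := by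
        rw [map_add, LinearMap.add_apply, e1] at e2
        have := congrArg (fun t => t + c) e2
        simp only [add_assoc, dd, add_zero] at this
        exact this
      exact hne1 (b.six u u1 ⟨lam, hul⟩ ⟨lam, hu1l⟩ e3).symm
    · exact h

theorem notHeavy_proof (hb : Stmt_basic) : Stmt_notHeavy := by
  intro V W B _ _ _ _ _ _ _ _ β c l K v0 lam P M N F hH
  have b := bas hb P
  -- two neighbours of `v0` which differ by `v0`
  obtain ⟨z, hz0⟩ := P.line v0 N.v0S
  have hzS : InS β c z := ⟨_, hz0⟩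
  have hz : Adj β c v0 z := adj_symm ((b.adj z v0 hzS N.v0S).2 hz0)
  have hz' : Adj β c v0 (v0 + z) := adj_add hz
  obtain ⟨u, f, hu, hul, hf, hzuf, -⟩ := F.nv z hz
  obtain ⟨u', f', hu', hul', hf', hzuf', -⟩ := F.nv _ hz'
  have huf := F.adj u f hu hul hf
  have he : v0 = (u + u') + (f + f') := by
    have e1 : v0 = z + (v0 + z) := by
      rw [add_comm v0 z, add_add_self]
    rw [e1, hzuf', hzuf]
    abel
  have hdK : u + u' ∈ VK β K := Submodule.add_mem _ hu hu'
  have heK : f + f' ∈ VK β K := by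
    have e1 : f + f' = v0 + (u + u') := by
      have e2 : v0 + (u + u') = (u + u') + (u + u') + (f + f') := by
        conv_lhs => rw [he]
        abel
      rw [e2, dd, zero_add]
    rw [e1]
    exact Submodule.add_mem _ N.v0K hdK
  have he0 : f + f' ≠ 0 := by
    intro h0
    rw [h0, add_zero] at he
    apply no_edge b M.ne hu N.v0K
    refine ⟨⟨lam, hul⟩, N.v0S, ?_⟩
    rw [he, add_add_self]
    exact ⟨lam, hul'⟩
  -- `e` kills all `l u`
  have hkill : ∀ a, a ∈ VK β K → β a lam = c → β (f + f') (l a) = 0 := by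
    intro a ha hal
    have e1 := (b.adj f a hf.1 ⟨lam, hal⟩).1 (adj_symm (F.adj a f ha hal hf))
    have e2 := (b.adj f' a hf'.1 ⟨lam, hal⟩).1 (adj_symm (F.adj a f' ha hal hf'))
    exact sum_zero' e1 e2
  have hle : Wv β v0 ≤ Wv β (f + f') := by
    intro w hw
    rw [mem_Wv] at hw ⊢
    have h1 : β v0 (l z + w) = c := by
      rw [map_add, hw, add_zero]
      exact (b.adj v0 z N.v0S hzS).1 hz
    obtain ⟨z2, hz2S, hz2⟩ := P.surj (l z + w) ⟨v0, h1⟩
    have hz2a : Adj β c v0 z2 := (b.adj v0 z2 N.v0S hz2S).2 (by rw [hz2]; exact h1)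
    obtain ⟨a, g, ha, hal, hg, hag, -⟩ := F.nv z2 hz2a
    have e1 : l z2 = l a + l g := by
      rw [hag]; exact b.ladd a g (F.adj a g ha hal hg)
    have e2 : l z = l u + l f := by
      rw [hzuf]; exact b.ladd u f huf
    have e3 : w = (l a + l u) + ((l g + lam) + (l f + lam)) := by
      have e4 : w = l z + (l z + w) := (add_add_self _ _).symm
      rw [e4, ← hz2, e1, e2]
      have e5 : (l a + l u) + ((l g + lam) + (l f + lam)) =
          l u + l f + (l a + l g) + (lam + lam) := by abel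
      rw [e5, dd, add_zero]
    rw [e3, map_add, map_add, hkill a ha hal, hkill u hu hul, heK _ (K.add_mem hg.2 hf.2)]
    simp
  have hlt : Wv β v0 < Wv β (f + f') := by
    refine lt_of_le_of_ne hle ?_
    intro heq
    have h1 : l u ∈ Wv β (f + f') := mem_Wv.2 (hkill u hu hul)
    rw [← heq, mem_Wv] at h1
    have h2 := b.six v0 u N.v0S ⟨lam, hul⟩ h1
    rw [← h2] at hul
    exact N.v0lam hul
  have hcard : Nat.card (Wv β v0) < Nat.card (Wv β (f + f')) :=
    Set.ncard_lt_ncard (s := (Wv β v0 : Set W)) (t := (Wv β (f + f') : Set W)) hlt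
      (Set.toFinite _)
  exact absurd (hH.2 _ he0) (not_le.2 hcard)

theorem twelve_proof (hb : Stmt_basic) : Stmt_twelve := by
  intro V W B _ _ _ _ _ _ _ _ β c l x y P hH hxy hall
  obtain ⟨h1, h2, h3, h4, h5, h6, h7, h8⟩ := hb V W B β c l P
  rw [← h2 x hxy.1]
  have hcard : Nat.card {z // Adj β c x z ∧ Adj β c y z} = 1 := by
    rw [h3 x y hxy.1 hxy.2.1, h4 x y hxy]
    simp
  have hx0 : x ≠ 0 := by
    rintro rfl
    obtain ⟨w, hw⟩ := hxy.1
    apply P.c0
    rw [← hw]; simp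
  have hxy' : Adj β c y (x + y) := by
    rw [add_comm]; exact adj_add (adj_symm hxy)
  have hset : {z | Adj β c x z} = {y, x + y} := by
    ext z
    constructor
    · intro hz
      rcases hall z hz.2.1 with rfl | h
      · exact Or.inl rfl
      · right
        have := Nat.card_eq_one_iff_unique.1 hcard
        have h9 := this.1.elim (⟨z, hz, h⟩ : {z // Adj β c x z ∧ Adj β c y z})
          ⟨x + y, adj_add hxy, hxy'⟩
        exact congrArg Subtype.val h9
    · rintro (rfl | rfl)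
      · exact hxy
      · exact adj_add hxy
  have e1 : Nat.card {z // Adj β c x z} = ({y, x + y} : Set V).ncard := by
    rw [← hset]; rfl
  rw [e1, Set.ncard_pair]
  intro h
  apply hx0
  have := congrArg (fun t => t + y) h
  simp only [add_assoc, dd, add_zero] at this
  exact this.symm

end Pool.Agent.T18
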